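import Mathlib
import Pool.Agent.Helper61.FR.Core

/-!
# Small entropy from convergence in measure

Adaptation of `Pool.Agent.Helper61.FR.exists_small_entropy`.
-/

set_option autoImplicit false

open MeasureTheory Finset Filter

namespace Pool.Agent.Helper17.KW

open Pool.Agent.Helper61.FR

/-- The one-step bounds of stage 1 give zero entropy, quantitatively: at some scale `20 s` the
entropy is at most `s log 2 / 4`. -/
lemma exists_small_entropy_tendsto {μ : Measure ℝ} (h : Inv23 μ) (M : ℕ → ℕ)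
    (hM : ∀ q, 200 ≤ q → 1 ≤ M q ∧ 200 * M q ≤ q) (m : ℕ) (hm : 1 ≤ m)
    (hφ : ∫ y, e (m * y) ∂μ ≠ 0)
    (hW : Tendsto (fun q : ℕ => μ.real (dev μ (M q) (2 ^ q) m (‖∫ y, e (m * y) ∂μ‖ / 4))) atTop
      (nhds 0)) :
    ∃ s : ℕ, 3 ≤ s ∧ ent (pr μ) (2 ^ (20 * s)) ≤ s * Real.log 2 / 4 := by
  set φ : ℂ := ∫ y, e (m * y) ∂μ with hφd
  have hφ0 : 0 < ‖φ‖ := norm_pos_iff.mpr hφ
  have hl2 : 0 < Real.log 2 := Real.log_pos (by norm_num)
  set c₁ : ℝ := Real.log (16 * m / (1 / 1000 * ‖φ‖ ^ 2)) + 1 with hc₁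
  -- choose `n`
  have hlog : Tendsto (fun n : ℕ => (n : ℝ) * Real.log 2 * (3 / 1000)) atTop atTop :=
    (tendsto_natCast_atTop_atTop.atTop_mul_const hl2).atTop_mul_const (by norm_num)
  have hgeo : Tendsto (fun n : ℕ => 2 * Real.pi * m * (3 / 4 : ℝ) ^ n) atTop (nhds 0) := by
    have := (tendsto_pow_atTop_nhds_zero_of_lt_one (r := (3 / 4 : ℝ)) (by norm_num)
      (by norm_num)).const_mul (2 * Real.pi * m)
    simpa using this
  have hgeo2 : Tendsto (fun n : ℕ => 8 * m * (3 / 4 : ℝ) ^ n) atTop (nhds 0) := by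
    have := (tendsto_pow_atTop_nhds_zero_of_lt_one (r := (3 / 4 : ℝ)) (by norm_num)
      (by norm_num)).const_mul (8 * (m : ℝ))
    simpa using this
  obtain ⟨n, hn1, hn2, hn3, hn4, hn5⟩ := ((eventually_ge_atTop 200).and
    ((hlog.eventually_ge_atTop c₁).and ((hgeo.eventually_lt_const (u := ‖φ‖ / 4) (by positivity)).and
    ((hgeo2.eventually_lt_const (u := (1 : ℝ)) (by norm_num)).and
    (hW.eventually_lt_const (u := (1 / 1000 : ℝ)) (by norm_num)))))).exists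
  obtain ⟨hM1, hM2⟩ := hM n hn1
  have hn0 : (0 : ℝ) < n := by exact_mod_cast (by omega : 0 < n)
  -- `2 ^ M ≤ (3 / 4) ^ n 2 ^ n`
  have hpow : (2 : ℝ) ^ (M n) ≤ (3 / 4) ^ n * 2 ^ n := by
    rw [← mul_pow]
    have h1 : (2 : ℝ) ≤ (3 / 2) ^ 2 := by norm_num
    have h2 : (2 : ℝ) ^ (M n) ≤ ((3 / 2) ^ 2) ^ (M n) := pow_le_pow_left₀ (by norm_num) h1 _
    rw [← pow_mul] at h2
    refine h2.trans ?_
    norm_num
    exact pow_le_pow_right₀ (by norm_num) (by omega)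
  have h2n0 : (0 : ℝ) < 2 ^ n := by positivity
  have hm0 : (0 : ℝ) ≤ m := by positivity
  have hcond1 : m * 2 ^ (M n + 3) ≤ 2 ^ n := by
    have : (m * 2 ^ (M n + 3) : ℝ) ≤ 2 ^ n := by
      rw [pow_add]
      calc (m * (2 ^ (M n) * 2 ^ 3) : ℝ) ≤ m * ((3 / 4) ^ n * 2 ^ n * 2 ^ 3) := by gcongr
        _ = (8 * m * (3 / 4) ^ n) * 2 ^ n := by ring
        _ ≤ 1 * 2 ^ n := by gcongr
        _ = 2 ^ n := one_mul _
    exact_mod_cast this
  have hcond2 : 2 * Real.pi * m * 2 ^ (M n) / 2 ^ n ≤ ‖φ‖ / 4 := by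
    rw [div_le_iff₀ h2n0]
    calc 2 * Real.pi * m * 2 ^ (M n) ≤ 2 * Real.pi * m * ((3 / 4) ^ n * 2 ^ n) := by gcongr
      _ = (2 * Real.pi * m * (3 / 4) ^ n) * 2 ^ n := by ring
      _ ≤ ‖φ‖ / 4 * 2 ^ n := by gcongr
  have hb : μ.real (dev μ (M n) (2 ^ n) m (‖φ‖ / 4)) ≤ 1 / 1000 := hn5.le
  have hstep := step_le h m n (M n) hm hM1 hcond1 (1 / 1000) (1 / 1000) (by norm_num) (by norm_num)
    hφ hb hcond2
  have hp := profile_pr h
  set D : ℕ := 3 ^ (2 ^ n) with hD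
  have hD1 : 1 ≤ D := Nat.one_le_pow _ _ (by norm_num)
  have hstep' : ent (pr μ) (D * 2 ^ n) - ent (pr μ) D ≤ n * Real.log 2 / 100 := by
    have hMn : (M n : ℝ) ≤ n / 200 := by
      have : (200 * M n : ℝ) ≤ n := by exact_mod_cast hM2
      linarith
    have := mul_le_mul_of_nonneg_right hMn hl2.le
    have h5 : c₁ ≤ n * Real.log 2 * (3 / 1000) := hn2
    have h6 : ent (pr μ) (D * 2 ^ n) ≤ ent (pr μ) D +
      (1 / 1000 + 1 / 1000) * (n * Real.log 2) + M n * Real.log 2 + c₁ := hstep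
    linarith
  -- choose `s`
  set k' : ℕ := 40 * 2 ^ n with hk'
  refine ⟨n * k', ?_, ?_⟩
  · have : 1 ≤ k' := by
      have : 1 ≤ 2 ^ n := Nat.one_le_two_pow
      omega
    nlinarith
  have e0 : 20 * (n * k') = (20 * k') * n := by ring
  have h7 := ent_chain hp D n (20 * k') hD1
  have h8 := ent_mono hp (2 ^ (20 * (n * k'))) D Nat.one_le_two_pow hD1
  have h9 := ent_le_log hp D hD1
  rw [mul_comm (2 ^ (20 * (n * k'))) D, e0] at h8
  rw [e0]
  have hlogD : Real.log D ≤ 2 ^ n * (2 * Real.log 2) := by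
    rw [hD]
    push_cast
    rw [Real.log_pow]
    have : Real.log 3 ≤ 2 * Real.log 2 := by
      rw [← Real.log_rpow (by norm_num)]
      exact Real.log_le_log (by norm_num) (by norm_num)
    push_cast
    gcongr
  have h10 : ((20 * k' : ℕ) : ℝ) * (ent (pr μ) (D * 2 ^ n) - ent (pr μ) D) ≤
      ((20 * k' : ℕ) : ℝ) * (n * Real.log 2 / 100) :=
    mul_le_mul_of_nonneg_left hstep' (Nat.cast_nonneg _)
  have h11 : (2 : ℝ) ^ n * (2 * Real.log 2) ≤ (n * k' : ℕ) * Real.log 2 / 20 := by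
    rw [hk']
    push_cast
    have h12 : (1 : ℝ) ≤ n := by exact_mod_cast (by omega : 1 ≤ n)
    have h13 : 0 ≤ (2 : ℝ) ^ n * Real.log 2 := by positivity
    nlinarith
  calc ent (pr μ) (2 ^ (20 * k' * n)) ≤ ent (pr μ) (D * 2 ^ (20 * k' * n)) := h8
    _ ≤ ent (pr μ) D + ((20 * k' : ℕ) : ℝ) * (ent (pr μ) (D * 2 ^ n) - ent (pr μ) D) := h7
    _ ≤ (n * k' : ℕ) * Real.log 2 / 20 + ((20 * k' : ℕ) : ℝ) * (n * Real.log 2 / 100) := by
        linarith
    _ = ((n * k' : ℕ) : ℝ) * Real.log 2 / 4 := by push_cast; ring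

/-- Summability gives convergence in probability. -/
lemma tendsto_dev_of_summable {μ : Measure ℝ} (M : ℕ → ℕ) (m : ℕ) (η : ℝ)
    (hW : Summable fun q : ℕ => (2 ^ q / q : ℝ) * μ.real (dev μ (M q) (2 ^ q) m η)) :
    Tendsto (fun q : ℕ => μ.real (dev μ (M q) (2 ^ q) m η)) atTop (nhds 0) := by
  refine squeeze_zero' (Eventually.of_forall fun _ => measureReal_nonneg) ?_
    hW.tendsto_atTop_zero
  filter_upwards [eventually_ge_atTop 1] with q hq
  have hq0 : (0 : ℝ) < q := by exact_mod_cast hq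
  have h2 : (q : ℝ) ≤ 2 ^ q := by exact_mod_cast Nat.lt_two_pow_self.le
  have h1 : (1 : ℝ) ≤ 2 ^ q / q := by rw [one_le_div hq0]; exact h2
  have h3 : 0 ≤ μ.real (dev μ (M q) (2 ^ q) m η) := measureReal_nonneg
  nlinarith

end Pool.Agent.Helper17.KW
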