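import Mathlib

/-!
# Korobov window: definitions

Vinogradov's mean value `J D b X`, counted over the integers, and exponential sums.
-/

set_option autoImplicit false

open Finset

namespace Pool.Agent.Helper17.KW

/-- `e(y) = exp (2 π i y)` -/
noncomputable def e (y : ℝ) : ℂ := Complex.exp (2 * Real.pi * y * Complex.I)

/-- the `j`-th power sum of `x` -/
def ps {b : ℕ} (x : Fin b → ℤ) (j : ℕ) : ℤ := ∑ i, x i ^ j

/-- the `b`-tuples of elements of `X` -/
def tup (b : ℕ) (X : Finset ℤ) : Finset (Fin b → ℤ) := Fintype.piFinset fun _ => X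

open Classical in
/-- Vinogradov's mean value: the number of pairs of `b`-tuples of elements of `X` with the same
power sums of the degrees `1, ..., D` -/
noncomputable def J (D b : ℕ) (X : Finset ℤ) : ℕ :=
  ((tup b X ×ˢ tup b X).filter fun q : (Fin b → ℤ) × (Fin b → ℤ) =>
    ∀ j ∈ Icc 1 D, ps q.1 j = ps q.2 j).card

/-- the elements of `X` in the residue class `u` modulo `p` -/
def cls (p : ℕ) (u : ZMod p) (X : Finset ℤ) : Finset ℤ := X.filter fun x : ℤ => (x : ZMod p) = u

open Classical in
/-- the number of solutions of the mixed system: `D`-tuples in `T`, `m`-tuples of elements of `X` -/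
noncomputable def mix (D m : ℕ) (T : Finset (Fin D → ℤ)) (X : Finset ℤ) : ℕ :=
  (((T ×ˢ tup m X) ×ˢ (T ×ˢ tup m X)).filter
    fun q : ((Fin D → ℤ) × (Fin m → ℤ)) × ((Fin D → ℤ) × (Fin m → ℤ)) =>
      ∀ j ∈ Icc 1 D, ps q.1.1 j + ps q.1.2 j = ps q.2.1 j + ps q.2.2 j).card

open Classical in
/-- the `D`-tuples of elements of `X` with distinct residues modulo `p` -/
noncomputable def dis (D p : ℕ) (X : Finset ℤ) : Finset (Fin D → ℤ) :=
  (tup D X).filter fun x : Fin D → ℤ => Function.Injective fun i => (x i : ZMod p)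

/-- the number of different residues modulo `p` of the coordinates of `x` -/
def nres (p : ℕ) {b : ℕ} (x : Fin b → ℤ) : ℕ := (univ.image fun i => (x i : ZMod p)).card

open Classical in
/-- the number of pairs of `b`-tuples of elements of `X` in the set `C` with the same power sums of
the degrees `1, ..., D` -/
noncomputable def N (D b : ℕ) (X : Finset ℤ) (C : Set (Fin b → ℤ)) : ℕ :=
  ((tup b X ×ˢ tup b X).filter fun q : (Fin b → ℤ) × (Fin b → ℤ) =>
    q.1 ∈ C ∧ q.2 ∈ C ∧ ∀ j ∈ Icc 1 D, ps q.1 j = ps q.2 j).card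

/-- the saving exponent of the mean value theorem after `τ` steps -/
noncomputable def Δ (D τ : ℕ) : ℝ := D * (D + 1) / 2 * (1 - (1 - 1 / (D : ℝ)) ^ τ)

/-- the symmetric interval `[-L, L]` of integers -/
noncomputable def box (L : ℕ) : Finset ℤ := Icc (-(L : ℤ)) L

end Pool.Agent.Helper17.KW
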