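import Mathlib
import Pool.Agent.Helper17.KW.Small
import Pool.Agent.Helper17.KW.Stage3W
import Pool.Agent.Helper17.KW.St.F4

/-!
# Diffusive rigidity with the full Vinogradov-Korobov window: measures on `[0, 1)`

Only averages under `x ↦ 3 x` are used; the window has any exponent `γ < 3 / 2`.
-/

set_option autoImplicit false

open MeasureTheory Finset Filter

namespace Pool.Agent.Helper17.KW

open Pool.Agent.Helper61.FR (Inv23 dev avg cnt nbhd pr ent typical exists_thin exists_tail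
  profile_pr false_of_arcs measurableSet_dev fract_mem_dev)

/-- the window -/
noncomputable def wing (γ : ℝ) (q : ℕ) : ℕ := ⌊(q : ℝ) ^ γ⌋₊

lemma wing_mono {γ : ℝ} (h0 : 0 ≤ γ) : Monotone (wing γ) := by
  intro a b hab
  unfold wing
  apply Nat.floor_mono
  exact Real.rpow_le_rpow (by positivity) (by exact_mod_cast hab) h0

lemma wing_le (γ : ℝ) (q : ℕ) : (wing γ q : ℝ) ≤ (q : ℝ) ^ γ := by
  unfold wing
  exact Nat.floor_le (by positivity)

lemma le_wing {γ : ℝ} (h0 : 0 ≤ γ) {q : ℕ} (hq : 1 ≤ q) : (q : ℝ) ^ γ ≤ 2 * wing γ q := by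
  have h1 : (1 : ℝ) ≤ (q : ℝ) ^ γ := Real.one_le_rpow (by exact_mod_cast hq) h0
  have h2 : (q : ℝ) ^ γ < wing γ q + 1 := Nat.lt_floor_add_one _
  have h3 : 1 ≤ wing γ q := by
    unfold wing
    exact Nat.le_floor (by exact_mod_cast h1)
  have h4 : (1 : ℝ) ≤ wing γ q := by exact_mod_cast h3
  linarith

lemma self_le_wing {γ : ℝ} (h1 : 1 ≤ γ) {q : ℕ} (hq : 1 ≤ q) : q ≤ wing γ q := by
  unfold wing
  apply Nat.le_floor
  have h2 : (1 : ℝ) ≤ q := by exact_mod_cast hq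
  calc (q : ℝ) = (q : ℝ) ^ (1 : ℝ) := (Real.rpow_one _).symm
    _ ≤ (q : ℝ) ^ γ := Real.rpow_le_rpow_of_exponent_le h2 h1

lemma sq_le_two_pow' (n : ℕ) : n ^ 2 ≤ 2 ^ (n + 1) := by
  induction n with
  | zero => norm_num
  | succ n ih =>
    rcases Nat.lt_or_ge n 3 with h | h
    · interval_cases n <;> norm_num
    · have : (n + 1) ^ 2 ≤ 2 * n ^ 2 := by nlinarith
      calc (n + 1) ^ 2 ≤ 2 * n ^ 2 := this
        _ ≤ 2 * 2 ^ (n + 1) := by omega
        _ = 2 ^ (n + 1 + 1) := by ring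

lemma rpow_le_two_pow' {γ : ℝ} (h2 : γ ≤ 2) {q : ℕ} (hq : 1 ≤ q) : (q : ℝ) ^ γ ≤ 2 * 2 ^ q := by
  have hq1 : (1 : ℝ) ≤ q := by exact_mod_cast hq
  calc (q : ℝ) ^ γ ≤ (q : ℝ) ^ 2 := by
        rw [← Real.rpow_natCast]
        exact Real.rpow_le_rpow_of_exponent_le hq1 (by exact_mod_cast h2)
    _ ≤ 2 ^ (q + 1) := by exact_mod_cast sq_le_two_pow' q
    _ = 2 * 2 ^ q := by ring

lemma wing_le_two_pow {γ : ℝ} (h1 : 1 ≤ γ) (h2 : γ ≤ 2) (q : ℕ) : wing γ q ≤ 2 ^ (q + 1) := by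
  rcases Nat.eq_zero_or_pos q with rfl | hq
  · unfold wing
    have : (0 : ℝ) ^ γ = 0 := Real.zero_rpow (by linarith)
    simp [this]
  have h1 : (wing γ q : ℝ) ≤ 2 * 2 ^ q := (wing_le γ q).trans (rpow_le_two_pow' h2 hq)
  have h2 : wing γ q ≤ 2 * 2 ^ q := by exact_mod_cast h1
  calc wing γ q ≤ 2 * 2 ^ q := h2
    _ = 2 ^ (q + 1) := by ring

/-- **Diffusive rigidity.**  Let `μ` be a `×2, ×3`-invariant probability measure without atoms.  If for
each character the averages under `x ↦ 3 x` over `2 ^ q` steps deviate from their mean with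
probabilities `b q` such that `∑ (2 ^ q / q ^ γ) b q < ∞`, `γ < 3 / 2`, then `μ` is Lebesgue measure. -/
theorem core_tail_gen {γ : ℝ} (hγ1 : 1 ≤ γ) (hγ2 : γ < 3 / 2) {μ : Measure ℝ} (h : Inv23 μ)
    (h0 : ∀ x, μ {x} = 0)
    (hW : ∀ m : ℕ, 1 ≤ m → ∀ η : ℝ, 0 < η →
      Summable fun q : ℕ => (2 ^ q / (q : ℝ) ^ γ) * μ.real (dev μ 1 (2 ^ q) m η))
    (m : ℕ) (hm : 1 ≤ m) : ∫ y, Pool.Agent.Helper61.FR.e (m * y) ∂μ = 0 := by
  by_contra hφ
  have := h.prob
  -- convergence in measure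
  have hdev : ∀ m : ℕ, 1 ≤ m → ∀ η : ℝ, 0 < η →
      Tendsto (fun q : ℕ => μ.real (dev μ 1 (2 ^ q) m η)) atTop (nhds 0) := by
    intro m hm η hη
    have h1 := ((hW m hm η hη).mul_left 2).tendsto_atTop_zero
    refine squeeze_zero' (Eventually.of_forall fun q => measureReal_nonneg) ?_ h1
    filter_upwards [eventually_ge_atTop 1] with q hq
    have h3 : (1 : ℝ) ≤ 2 * (2 ^ q / (q : ℝ) ^ γ) := by
      have h8 : (0 : ℝ) < (q : ℝ) ^ γ :=
        Real.rpow_pos_of_pos (by exact_mod_cast hq) _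
      rw [mul_div_assoc', le_div_iff₀ h8, one_mul]
      exact rpow_le_two_pow' (by linarith) hq
    have h4 : 0 ≤ μ.real (dev μ 1 (2 ^ q) m η) := measureReal_nonneg
    rw [← mul_assoc]
    nlinarith
  obtain ⟨s, hs, hent⟩ := exists_small_entropy_tendsto h (fun _ => 1) (fun q hq => ⟨le_rfl, by omega⟩)
    m hm hφ (hdev m hm _ (by have := norm_pos_iff.mpr hφ; positivity))
  obtain ⟨U, hUr, hUc, hUm⟩ := exists_thin (profile_pr h) s hs hent
  obtain ⟨S, η, hη, hS1, hSt⟩ := typical h (20 * s) U hUm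
  set r := 20 * s with hr
  obtain ⟨q₁, n₁, hn₁, hwin⟩ := window_gen γ hγ2 r U hUc
  -- the typical points
  set G : ℕ → Set ℝ := fun q => {x | ∀ m ∈ S, x ∉ dev μ 1 (2 ^ q) m η} with hG
  have hGc : ∀ q, (G q)ᶜ = ⋃ m ∈ S, dev μ 1 (2 ^ q) m η := by
    intro q; ext x; simp [hG]
  have hGm : ∀ q, MeasurableSet (G q) := by
    intro q
    rw [← MeasurableSet.compl_iff, hGc]
    exact Finset.measurableSet_biUnion _ fun m _ => measurableSet_dev μ _ _ _ _
  have hGp : ∀ q x, Int.fract x ∈ G q ↔ x ∈ G q := by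
    intro q x
    show (∀ m ∈ S, _) ↔ (∀ m ∈ S, _)
    refine forall₂_congr fun m _ => not_congr (fract_mem_dev μ _ _ _ _ _)
  -- the tail
  set F : ℕ → ℝ := fun q => ∑ m ∈ S, (2 ^ q / (q : ℝ) ^ γ) *
    μ.real (dev μ 1 (2 ^ q) m η) with hF
  have hFs : Summable F := summable_sum fun m hm => hW m (hS1 m hm) η hη
  have hF0 : ∀ q, 0 ≤ F q := fun q => sum_nonneg fun m _ => by positivity
  obtain ⟨N, hN⟩ := exists_tail hFs hF0 (1 / 256) (by norm_num)
  set q₀ : ℕ := N + q₁ + 4 * n₁ + 1 with hq₀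
  have hc := stage3W h q₀ n₁ (wing γ) hn₁ (wing_mono (by linarith)) (fun q hq => by
      have := self_le_wing hγ1 (q := q) (by omega)
      omega) (fun q _ => wing_le_two_pow hγ1 (by linarith) q) G hGm hGp ?_ ?_
  · exact false_of_arcs h0 hc
  · intro q hq n' d τ x h1 h2 hd hτ hx hx'
    have e1 : (n' : ℝ) ≤ (q : ℝ) ^ γ :=
      (by exact_mod_cast h2 : (n' : ℝ) ≤ wing γ q).trans (wing_le γ q)
    have t1 := hSt 1 (2 ^ q) le_rfl Nat.one_le_two_pow x hx
    have t2 := hSt 1 (2 ^ q) le_rfl Nat.one_le_two_pow _ hx'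
    rw [one_mul] at t1 t2
    exact hwin q (by omega) n' d τ x h1 e1 hd hτ t1 t2
  · intro Q
    have key : ∀ q ∈ Ico q₀ Q, (2 ^ q / wing γ q : ℝ) * μ.real (G q)ᶜ ≤ 2 * F q := by
      intro q hq
      have hq1 : 1 ≤ q := by
        have := (mem_Ico.1 hq).1
        omega
      have h1 : μ.real (G q)ᶜ ≤ ∑ m ∈ S, μ.real (dev μ 1 (2 ^ q) m η) := by
        rw [hGc]
        exact measureReal_biUnion_finset_le _ _
      have h2 : (2 ^ q / wing γ q : ℝ) ≤ 2 * (2 ^ q / (q : ℝ) ^ γ) := by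
        have h3 : (0 : ℝ) < (q : ℝ) ^ γ :=
          Real.rpow_pos_of_pos (by exact_mod_cast hq1) _
        have h4 : (q : ℝ) ^ γ ≤ 2 * wing γ q := le_wing (by linarith) hq1
        have h5 : (0 : ℝ) < wing γ q := by
          have := self_le_wing hγ1 hq1
          exact_mod_cast (by omega : 0 < wing γ q)
        rw [mul_div_assoc', div_le_div_iff₀ h5 h3]
        have h6 : (0 : ℝ) ≤ 2 ^ q := by positivity
        nlinarith
      have h7 : 0 ≤ (2 ^ q / wing γ q : ℝ) := by positivity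
      have h8 : 0 ≤ μ.real (G q)ᶜ := measureReal_nonneg
      have h9 : 0 ≤ ∑ m ∈ S, μ.real (dev μ 1 (2 ^ q) m η) :=
        sum_nonneg fun m _ => measureReal_nonneg
      calc (2 ^ q / wing γ q : ℝ) * μ.real (G q)ᶜ
          ≤ (2 * (2 ^ q / (q : ℝ) ^ γ)) * ∑ m ∈ S, μ.real (dev μ 1 (2 ^ q) m η) :=
            mul_le_mul h2 h1 h8 (h7.trans h2)
        _ = 2 * F q := by
            rw [hF]
            simp only
            rw [← mul_sum]
            ring
    calc ∑ q ∈ Ico q₀ Q, (2 ^ q / wing γ q : ℝ) * μ.real (G q)ᶜ ≤ ∑ q ∈ Ico q₀ Q, 2 * F q :=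
          sum_le_sum key
      _ = 2 * ∑ q ∈ Ico q₀ Q, F q := by rw [mul_sum]
      _ ≤ 2 * (1 / 256) := by
          have := hN q₀ (by omega) Q
          linarith
      _ = 1 / 128 := by norm_num

end Pool.Agent.Helper17.KW
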