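import Mathlib
import Pool.Agent.Helper75.DF.Defs
import Pool.Agent.Helper17.KW.CoreG

/-!
# The windows of Vinogradov-Korobov in the notation of `Helper75.DF`
-/

set_option autoImplicit false

open Finset

namespace Pool.Agent.Helper17.KW

/-- for every `γ < 3 / 2`, `⌊q ^ γ⌋` is a window -/
theorem window_wing {γ : ℝ} (hγ : γ < 3 / 2) : Helper75.DF.Window (wing γ) := by
  intro η hη
  obtain ⟨q₀, hq₀⟩ := korobov_gen 2 3 (Or.inl ⟨rfl, rfl⟩) γ hγ η hη
  refine ⟨q₀, fun q hq k hk hkW d hd => ?_⟩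
  have h1 : (k : ℝ) ≤ (q : ℝ) ^ γ := (by exact_mod_cast hkW : (k : ℝ) ≤ wing γ q).trans (wing_le γ q)
  have hnd : ¬ ((2 : ℕ) : ℤ) ∣ d := by
    intro h4
    have h5 : (2 : ℤ) ∣ d := by exact_mod_cast h4
    exact (Int.not_even_iff_odd.mpr hd) (even_iff_two_dvd.mpr h5)
  have key := hq₀ q hq k hk h1 d hnd
  exact_mod_cast key

end Pool.Agent.Helper17.KW
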